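import Mathlib
import Pool.Agent.H4.FKS.Real

/-!
# Reduction to fractional matchings with a system of distinct representatives

Every fractional matching is a convex combination of fractional matchings `x` such that the edges
of the support of `x` have distinct representatives: if Hall's condition fails, then `x` can be
moved in both directions along a vector which does not change the vertex sums.
-/

set_option autoImplicit false
set_option linter.unusedSectionVars false
set_option linter.unusedVariables false

namespace H84.FKS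

open Finset H4.FKS

variable {V E : Type} [Fintype V] [DecidableEq V] [Fintype E] [DecidableEq E]

/-- `x` has a system of distinct representatives on its support. -/
def HasSDR (H : E → Finset V) (x : E → ℝ) : Prop :=
  ∃ ρ : E → V, (∀ e, x e ≠ 0 → ρ e ∈ H e) ∧ ∀ e f, x e ≠ 0 → x f ≠ 0 → ρ e = ρ f → e = f

/-- Moving along a direction with a negative entry until a coordinate vanishes. -/
theorem move {x d : E → ℝ} (hx : ∀ e, 0 ≤ x e) (hd : ∀ e, d e ≠ 0 → x e ≠ 0)
    (hneg : ∃ e, d e < 0) :
    ∃ t : ℝ, 0 < t ∧ (∀ e, 0 ≤ x e + t * d e) ∧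
      (univ.filter fun e => x e + t * d e ≠ 0) ⊂ (univ.filter fun e => x e ≠ 0) := by
  obtain ⟨e0, he0⟩ := hneg
  obtain ⟨m, hm, hmin⟩ := exists_min_image (univ.filter fun e => d e < 0) (fun e => x e / (-d e))
    ⟨e0, by simp [he0]⟩
  simp only [mem_filter, mem_univ, true_and] at hm hmin
  have hxm : 0 < x m := lt_of_le_of_ne (hx m) (Ne.symm (hd m hm.ne))
  have ht : 0 < x m / (-d m) := div_pos hxm (by linarith)
  refine ⟨x m / (-d m), ht, ?_, ?_⟩
  · intro e
    rcases lt_or_ge (d e) 0 with h | h
    · have h1 := hmin e h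
      rw [le_div_iff₀ (by linarith)] at h1
      linarith
    · have := mul_nonneg ht.le h
      have := hx e
      linarith
  · refine ⟨?_, ?_⟩
    · intro e he
      simp only [mem_filter, mem_univ, true_and] at he ⊢
      intro h
      apply he
      have : d e = 0 := by
        by_contra h2
        exact hd e h2 h
      rw [h, this]
      ring
    · intro h
      have h1 : m ∈ univ.filter fun e => x e ≠ 0 := by simp [hxm.ne']
      have h2 := h h1
      simp only [mem_filter, mem_univ, true_and] at h2
      apply h2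
      have h3 : d m ≠ 0 := hm.ne
      rw [div_neg, neg_mul, div_mul_cancel₀ _ h3]
      ring

/-- If there are no distinct representatives, some nonzero vector on the support does not change
the vertex sums. -/
theorem exists_dir (H : E → Finset V) (hne : ∀ e, (H e).Nonempty) (x : E → ℝ)
    (h : ¬ HasSDR H x) :
    ∃ d : E → ℝ, d ≠ 0 ∧ (∀ e, d e ≠ 0 → x e ≠ 0) ∧ ∀ v, ∑ f with v ∈ H f, d f = 0 := by
  classical
  let ι := {e : E // x e ≠ 0}
  have hall : ¬ ∀ s : Finset ι, s.card ≤ (s.biUnion fun i => H i.1).card := by
    intro hh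
    obtain ⟨f, hf, hfm⟩ := (Finset.all_card_le_biUnion_card_iff_exists_injective
      (fun i : ι => H i.1)).1 hh
    apply h
    choose c hc using fun e => (hne e : ∃ v, v ∈ H e)
    refine ⟨fun e => if he : x e ≠ 0 then f ⟨e, he⟩ else c e, fun e he => ?_,
      fun e e' he he' hee => ?_⟩
    · simp only [dif_pos he]
      exact hfm ⟨e, he⟩
    · simp only [dif_pos he, dif_pos he'] at hee
      exact congrArg Subtype.val (hf hee)
  push Not at hall
  obtain ⟨s, hs⟩ := hall
  set U := s.biUnion fun i => H i.1 with hU
  let L : (s → ℝ) →ₗ[ℝ] (U → ℝ) :=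
    { toFun := fun d v => ∑ i : s, if (v : V) ∈ H i.1.1 then d i else 0
      map_add' := fun a b => by
        ext v
        simp only [Pi.add_apply]
        rw [← sum_add_distrib]
        refine sum_congr rfl fun i _ => ?_
        split_ifs <;> simp
      map_smul' := fun c a => by
        ext v
        simp only [Pi.smul_apply, smul_eq_mul, RingHom.id_apply, mul_sum]
        refine sum_congr rfl fun i _ => ?_
        split_ifs <;> simp }
  have hker : LinearMap.ker L ≠ ⊥ := by
    apply LinearMap.ker_ne_bot_of_finrank_lt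
    simp only [Module.finrank_fintype_fun_eq_card, Fintype.card_coe]
    exact hs
  obtain ⟨a, ha, ha0⟩ := (Submodule.ne_bot_iff _).1 hker
  rw [LinearMap.mem_ker] at ha
  refine ⟨fun e => if he : x e ≠ 0 then (if hi : (⟨e, he⟩ : ι) ∈ s then a ⟨⟨e, he⟩, hi⟩ else 0)
    else 0, ?_, ?_, ?_⟩
  · intro h0
    apply ha0
    ext i
    have h1 := congrFun h0 i.1.1
    simp only [Pi.zero_apply] at h1
    rw [dif_pos i.1.2, dif_pos i.2] at h1
    exact h1
  · intro e he h0
    apply he
    show (if he : x e ≠ 0 then (if hi : (⟨e, he⟩ : ι) ∈ s then a ⟨⟨e, he⟩, hi⟩ else 0)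
      else 0) = 0
    rw [dif_neg (not_not.2 h0)]
  · intro v
    rw [sum_filter]
    have hsum : ∑ e : E, (if v ∈ H e then (if he : x e ≠ 0 then
        (if hi : (⟨e, he⟩ : ι) ∈ s then a ⟨⟨e, he⟩, hi⟩ else 0) else 0) else 0) =
        ∑ i : s, if v ∈ H i.1.1 then a i else 0 := by
      symm
      apply sum_of_injOn (fun i : s => i.1.1)
      · intro i _ j _ hij
        exact Subtype.ext (Subtype.ext hij)
      · intro i _
        exact mem_coe.2 (mem_univ _)
      · intro e _ he
        simp only [Set.mem_image, coe_univ, Set.mem_univ, true_and, not_exists] at he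
        by_cases h1 : v ∈ H e
        · rw [if_pos h1]
          by_cases h2 : x e ≠ 0
          · rw [dif_pos h2]
            by_cases h3 : (⟨e, h2⟩ : ι) ∈ s
            · exact absurd rfl (he ⟨⟨e, h2⟩, h3⟩)
            · rw [dif_neg h3]
          · rw [dif_neg h2]
        · rw [if_neg h1]
      · intro i _
        rw [dif_pos i.1.2, dif_pos i.2]
    rw [hsum]
    by_cases hv : v ∈ U
    · exact congrFun ha ⟨v, hv⟩
    · apply sum_eq_zero
      intro i _
      rw [if_neg]
      intro h1
      exact hv (mem_biUnion.2 ⟨i.1, i.2, h1⟩)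


/-- **Reduction.** A property of fractional matchings which is closed under convex combinations
holds as soon as it holds for those which have distinct representatives. -/
theorem reduce_sdr (H : E → Finset V) (hne : ∀ e, (H e).Nonempty) (P : (E → ℝ) → Prop)
    (hconv : ∀ (x x' : E → ℝ) (t : ℝ), 0 ≤ t → t ≤ 1 → P x → P x' →
      P (fun e => t * x e + (1 - t) * x' e))
    (hsdr : ∀ x : E → ℝ, (∀ e, 0 ≤ x e) → (∀ v, ∑ f with v ∈ H f, x f ≤ 1) → HasSDR H x → P x)
    (x : E → ℝ) (hx : ∀ e, 0 ≤ x e) (hv : ∀ v, ∑ f with v ∈ H f, x f ≤ 1) : P x := by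
  classical
  suffices hmain : ∀ (n : ℕ) (x : E → ℝ), (univ.filter fun e => x e ≠ 0).card ≤ n →
      (∀ e, 0 ≤ x e) → (∀ v, ∑ f with v ∈ H f, x f ≤ 1) → P x from hmain _ x le_rfl hx hv
  intro n
  induction n with
  | zero =>
    intro x hcard hx hv
    apply hsdr x hx hv
    have h0 : ∀ e, x e = 0 := by
      intro e
      by_contra h
      have : e ∈ univ.filter fun e => x e ≠ 0 := by simp [h]
      rw [card_eq_zero.1 (Nat.le_zero.1 hcard)] at this
      simp at this
    choose c hc using fun e => (hne e : ∃ v, v ∈ H e)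
    exact ⟨c, fun e he => absurd (h0 e) he, fun e _ he => absurd (h0 e) he⟩
  | succ n ih =>
    intro x hcard hx hv
    by_cases h : HasSDR H x
    · exact hsdr x hx hv h
    obtain ⟨d, hd0, hds, hdv⟩ := exists_dir H hne x h
    -- both signs occur
    obtain ⟨e0, he0⟩ : ∃ e, d e ≠ 0 := by
      by_contra hcon
      push Not at hcon
      exact hd0 (funext hcon)
    obtain ⟨v0, hv0⟩ := hne e0
    have hneg : ∃ e, d e < 0 := by
      by_contra hcon
      push Not at hcon
      have h1 := hdv v0
      rw [sum_eq_zero_iff_of_nonneg (fun e _ => hcon e)] at h1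
      exact he0 (h1 e0 (by simp [hv0]))
    have hpos : ∃ e, (-d) e < 0 := by
      by_contra hcon
      push Not at hcon
      have h1 : ∑ f with v0 ∈ H f, (-d) f = 0 := by
        simp only [Pi.neg_apply, sum_neg_distrib, hdv v0, neg_zero]
      rw [sum_eq_zero_iff_of_nonneg (fun e _ => hcon e)] at h1
      have h2 := h1 e0 (by simp [hv0])
      rw [Pi.neg_apply, neg_eq_zero] at h2
      exact he0 h2
    obtain ⟨t, ht, ht1, ht2⟩ := move hx hds hneg
    obtain ⟨u, hu, hu1, hu2⟩ := move hx (d := -d) (fun e he => hds e (by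
      intro h0
      apply he
      rw [Pi.neg_apply, h0, neg_zero])) hpos
    have hP1 : P (fun e => x e + t * d e) := by
      apply ih _ _ ht1
      · intro v
        rw [sum_add_distrib, ← mul_sum, hdv, mul_zero, add_zero]
        exact hv v
      · have := card_lt_card ht2
        omega
    have hP2 : P (fun e => x e + u * (-d) e) := by
      apply ih _ _ hu1
      · intro v
        rw [sum_add_distrib, ← mul_sum]
        simp only [Pi.neg_apply, sum_neg_distrib, hdv, neg_zero, mul_zero, add_zero]
        exact hv v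
      · have := card_lt_card hu2
        omega
    have htu : 0 < t + u := add_pos ht hu
    have h3 := hconv _ _ (u / (t + u)) (div_nonneg hu.le htu.le)
      ((div_le_one htu).2 (by linarith)) hP1 hP2
    have h4 : (fun e => u / (t + u) * (x e + t * d e) +
        (1 - u / (t + u)) * (x e + u * (-d) e)) = x := by
      ext e
      simp only [Pi.neg_apply]
      field_simp
      ring
    rwa [h4] at h3

/-- Realisable demands form a convex set. -/
theorem real_convex {r : E → E → Prop} {R : Finset E} {y y' : E → ℝ} (h : Real r R y)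
    (h' : Real r R y') {t : ℝ} (ht0 : 0 ≤ t) (ht1 : t ≤ 1) :
    Real r R (fun e => t * y e + (1 - t) * y' e) := by
  obtain ⟨w, hw0, hws, hw1, hwm⟩ := h
  obtain ⟨w', hw0', hws', hw1', hwm'⟩ := h'
  refine ⟨fun M => t * w M + (1 - t) * w' M, ?_, ?_, ?_, ?_⟩
  · intro M
    have := mul_nonneg ht0 (hw0 M)
    have := mul_nonneg (sub_nonneg.2 ht1) (hw0' M)
    linarith
  · intro M hM
    by_cases h1 : w M = 0
    · by_cases h2 : w' M = 0
      · exfalso
        apply hM
        show t * w M + (1 - t) * w' M = 0
        rw [h1, h2, mul_zero, mul_zero, add_zero]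
      · exact hws' M h2
    · exact hws M h1
  · rw [sum_add_distrib, ← mul_sum, ← mul_sum, hw1, hw1']
    ring
  · intro e he
    rw [sum_add_distrib, ← mul_sum, ← mul_sum, hwm e he, hwm' e he]

/-- The reduction for the Füredi-Kahn-Seymour problem: it is enough to realise the demands
`x e / g |e|` for the fractional matchings `x` with distinct representatives. -/
theorem real_of_sdr (H : E → Finset V) (hne : ∀ e, (H e).Nonempty) (g : ℕ → ℝ)
    (hsdr : ∀ x : E → ℝ, (∀ e, 0 ≤ x e) → (∀ v, ∑ f with v ∈ H f, x f ≤ 1) → HasSDR H x →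
      Real (fun e f => ¬ Disjoint (H e) (H f)) univ (fun e => x e / g (H e).card))
    (x : E → ℝ) (hx : ∀ e, 0 ≤ x e) (hv : ∀ v, ∑ f with v ∈ H f, x f ≤ 1) :
    Real (fun e f => ¬ Disjoint (H e) (H f)) univ (fun e => x e / g (H e).card) := by
  refine reduce_sdr H hne
    (fun x => Real (fun e f => ¬ Disjoint (H e) (H f)) univ (fun e => x e / g (H e).card))
    ?_ hsdr x hx hv
  intro x x' t ht0 ht1 h h'
  have := real_convex h h' ht0 ht1
  convert this using 2
  ring

end H84.FKS
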